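import Pool.Agent.Q112.BP.Named2

/-!
# Bounded integer cocycles on pp-definable relations are exact unless the template is hard

Let `𝔸` be an omega-categorical model-complete core with finitely many relations which does not
pp-construct `K_3`.  Then every bounded flat integer function on a family of pp-definable relations
is exact.  In particular a bounded integer-valued function `w` with `w(x,y) + w(y,z) = w(x,z)` for
`x ≤ y ≤ z`, where `≤` is a pp-definable preorder on a power of the domain, has the form
`w(x,y) = u(y) - u(x)`; the same holds for functions on pp-definable reflexive graphs with sum zero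
along all closed walks of lengths 3 and 4, and for flat functions on the pairs of tuples of a
pp-definable relation which differ in one position.

Proof.  Suppose that the sum of `w` along some closed walk `C` is not zero.  Let `Q` be the set of
the polymorphisms which fix all entries of `C` (when applied to constant tuples).  A polymorphism in
`Q` has an integer degree in each of its variables along `C`.  The degrees are additive, their sum is
the sum of `w` along `C`, and the sum of their absolute values is bounded.  So there is a
polymorphism `m` in `Q` with the largest number of variables of nonzero degree, and composing `m`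
with a polymorphism `g` in `Q` in all variables selects one variable of `g`.  In a model-complete core
every polymorphism becomes a member of `Q` after composition with an endomorphism which depends only
on the values at the constant tuples; this gives a uniformly continuous minor preserving map from
the polymorphisms of `𝔸` to the projections.
-/

set_option autoImplicit false

namespace Pool.Agent.Results.MP_6ab439_lc.BoundedCocycles

open Pool.Agent.W994.AR Pool.Agent.Q112.BP

/-- Let `𝔸` be a countable structure with finitely many relations whose automorphism group has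
finitely many orbits on tuples of each length, a model-complete core which does not pp-construct
`K_3`.
(1) Let `R a` (`a : P`) be binary relations on `A ^ n`, primitive positive definable in `𝔸`, and let
`w` be a bounded flat integer function on this family (`FlatFam`).  Then `w x y = u y - u x` for
some function `u` and all pairs in the relations.
(2) This holds if `R` is a pp-definable relation on `A ^ n`, transitive and reflexive on its field,
and `w` is bounded on `R` with `w x y + w y z = w x z` whenever `(x, y)` and `(y, z)` are in `R`.
(3) This holds if `R` is a pp-definable relation on `A ^ n`, symmetric and reflexive on its field,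
and `w` is bounded on `R` and has sum zero along all closed walks of lengths 3 and 4.
(4) This holds for the pairs of tuples which differ in at most one position, in a pp-definable set
`R` of `m`-tuples of elements of `A ^ n`, for `w` a bounded flat function on these pairs.
(5) Integer functions on pairs of elements of `A ^ n` invariant under `Aut(𝔸)` are bounded. -/
theorem result {A ι : Type} [Countable A] [Finite ι] {ar : ι → ℕ} (𝔸 : Str ι ar A)
    (hO : Oligo 𝔸) (hcore : MCCore 𝔸) (hno : ¬ PPConstructsK3 𝔸) (n : ℕ) :
    (∀ (P : Type) (R : P → Set (Fin n ⊕ Fin n → A)) (w : (Fin n → A) → (Fin n → A) → ℤ),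
      (∀ a, PPDef 𝔸 (R a)) → FlatFam (fun a x y => Sum.elim x y ∈ R a) w →
      ∃ u : (Fin n → A) → ℤ, ∀ a x y, Sum.elim x y ∈ R a → w x y = u y - u x) ∧
    (∀ (R : Set (Fin n ⊕ Fin n → A)) (w : (Fin n → A) → (Fin n → A) → ℤ), PPDef 𝔸 R →
      (∀ x y : Fin n → A, Sum.elim x y ∈ R → Sum.elim x x ∈ R ∧ Sum.elim y y ∈ R) →
      (∀ x y z : Fin n → A, Sum.elim x y ∈ R → Sum.elim y z ∈ R → Sum.elim x z ∈ R) →
      (∃ B : ℤ, ∀ x y, Sum.elim x y ∈ R → |w x y| ≤ B) →
      (∀ x y z : Fin n → A, Sum.elim x y ∈ R → Sum.elim y z ∈ R → w x y + w y z = w x z) →
      ∃ u : (Fin n → A) → ℤ, ∀ x y, Sum.elim x y ∈ R → w x y = u y - u x) ∧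
    (∀ (R : Set (Fin n ⊕ Fin n → A)) (w : (Fin n → A) → (Fin n → A) → ℤ), PPDef 𝔸 R →
      (∀ x y : Fin n → A, Sum.elim x y ∈ R → Sum.elim x x ∈ R) →
      (∀ x y : Fin n → A, Sum.elim x y ∈ R → Sum.elim y x ∈ R) →
      (∃ B : ℤ, ∀ x y, Sum.elim x y ∈ R → |w x y| ≤ B) →
      (∀ x y z : Fin n → A, Sum.elim x y ∈ R → Sum.elim y z ∈ R → Sum.elim z x ∈ R →
        w x y + w y z + w z x = 0) →
      (∀ x y z u : Fin n → A, Sum.elim x y ∈ R → Sum.elim y z ∈ R → Sum.elim z u ∈ R →
        Sum.elim u x ∈ R → w x y + w y z + w z u + w u x = 0) →
      ∃ u : (Fin n → A) → ℤ, ∀ x y, Sum.elim x y ∈ R → w x y = u y - u x) ∧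
    (∀ (m : ℕ) (R : Set (Fin m × Fin n → A))
      (w : (Fin m × Fin n → A) → (Fin m × Fin n → A) → ℤ), PPDef 𝔸 R → FlatFam (Mov R) w →
      ∃ u : (Fin m × Fin n → A) → ℤ, ∀ a x y, Mov R a x y → w x y = u y - u x) ∧
    (∀ w : (Fin n → A) → (Fin n → A) → ℤ,
      (∀ g ∈ autGroup 𝔸, ∀ x y : Fin n → A,
        w (fun j => g (x j)) (fun j => g (y j)) = w x y) →
      ∃ B : ℤ, ∀ x y, |w x y| ≤ B) := by
  refine ⟨?_, ?_, ?_, ?_, ?_⟩
  · intro P R w hR hw
    exact flat_exact hO hcore hno (fun hf => polM_of_pp hR hf) hw
  · intro R w hR h1 h2 h3 h4
    exact preorder_exact hO hcore hno hR h1 h2 h3 h4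
  · intro R w hR h1 h2 h3 h4 h5
    exact graph_exact hO hcore hno hR h1 h2 h3 h4 h5
  · intro m R w hR hw
    exact moves_exact hO hcore hno hR hw
  · intro w hw
    exact bounded_of_invariant hO w hw

end Pool.Agent.Results.MP_6ab439_lc.BoundedCocycles
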