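import Pool.Agent.Q212.BP.Maj
import Pool.Agent.Q212.BP.RobAs

/-!
# Three random tuples make every template hard, robustly

Let `G` be any permutation group of a set `B` and let `D` be a finite subset of `B` with at least
two elements.  Three or more random `k`-tuples with entries in `D` generate a `G`-invariant relation
`R` such that `(B; Γ, R)` pp-constructs `K_3` for every `Γ`, and this stays true after changing many
orbits of `R`.  Two tuples never suffice if `G` is trivial and `Γ` has a majority polymorphism.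
-/

set_option autoImplicit false

namespace Pool.Agent.Results.MP_6ab439_lc.ThreeRandomTuples

open Pool.Agent.W994.AR Pool.Agent.Q212.BP

/-- (1) Let `m ≥ 3`.  For all but a proportion
`d ^ 3 * (1 - 1 / d ^ 3) ^ k + (m - 3) * d ^ (d ^ 3) / d ^ k` of the `m`-tuples of `k`-tuples with
entries in a `d`-element set `D ⊆ B`, `d ≥ 2`, the relation generated by them and any permutation
group of `B` is hard.
(2) If `3 ≤ m ≤ C * d ^ k`, then for all but a proportion `A * (1 + 1 / (4 * d ^ 3)) ^ (-k)` every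
relation without constant tuples which arises from the generated one by changing at most `s`
orbits is hard, as long as `s < m / 3` (rounded down) and `s ≤ (1 + 1 / (8 * d ^ 3)) ^ k`.
(3) If `Γ` has a majority polymorphism, then `(B; Γ, {a 0, a 1})` does not pp-construct `K_3`, for
all tuples `a 0` and `a 1`. -/
theorem result :
    (∀ {B : Type} (D : Finset B), 2 ≤ D.card → ∀ m k : ℕ, 3 ≤ m →
      (Nat.card {a : Fin m → Fin k → D // ¬ Hard (fun s i => (a s i : B))} : ℝ) ≤
        ((D.card : ℝ) ^ 3 * (1 - 1 / (D.card : ℝ) ^ 3) ^ k +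
          ((m : ℝ) - 3) * (D.card : ℝ) ^ (D.card ^ 3) / (D.card : ℝ) ^ k) *
        ((D.card : ℝ) ^ k) ^ m) ∧
    (∀ (d : ℕ) (C : ℝ), 2 ≤ d → ∃ A : ℝ, ∀ {B : Type} (D : Finset B), D.card = d →
      ∀ k m s : ℕ, 3 ≤ m → (m : ℝ) ≤ C * (d : ℝ) ^ k → s < m / 3 →
      (s : ℝ) ≤ (1 + 1 / (8 * (d : ℝ) ^ 3)) ^ k →
      (Nat.card {a : Fin m → Fin k → D // ¬ Robust s (fun s i => (a s i : B))} : ℝ) ≤
        A * ((1 + 1 / (4 * (d : ℝ) ^ 3)) ^ k)⁻¹ * ((d : ℝ) ^ k) ^ m) ∧
    (∀ {B ι : Type} {arΓ : ι → ℕ} (Γ : Str ι arΓ B) (f : (Fin 3 → B) → B), IsPol Γ f → IsMajority f →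
      ∀ (k : ℕ) (a : Fin 2 → Fin k → B),
        ¬ PPConstructsK3 (expand Γ (τ := Fin 1) (k := fun _ => k) (fun _ => gen ⊥ a))) := by
  classical
  have hcard : ∀ {B : Type} (D : Finset B) (m k : ℕ),
      (Fintype.card (Fin m → Fin k → D) : ℝ) = ((D.card : ℝ) ^ k) ^ m := by
    intro B D m k
    rw [Fintype.card_fun, Fintype.card_fun, Fintype.card_fin, Fintype.card_fin,
      Fintype.card_coe]
    push_cast
    rfl
  refine ⟨?_, ?_, ?_⟩
  · intro B D hD m k hm
    have h1 := hard_bound (B := B) (D := D) (e := Subtype.val) Subtype.val_injective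
      (by rw [Fintype.card_coe]; exact hD) hm k
    have h2 := natCard_le h1
    rw [hcard, Fintype.card_coe] at h2
    exact h2
  · intro d C hd
    obtain ⟨A, hA⟩ := rob_asym d hd C
    refine ⟨A, ?_⟩
    intro B D hD k m s hm hmC hs hs'
    have h1 := hA B D Subtype.val Subtype.val_injective (by rw [Fintype.card_coe]; exact hD)
      k m s hm hmC hs hs'
    have h2 := natCard_le h1
    rw [hcard, hD] at h2
    exact h2
  · intro B ι arΓ Γ f hf hm k a
    exact not_k3_two hf hm a

end Pool.Agent.Results.MP_6ab439_lc.ThreeRandomTuples
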