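import Pool.Agent.Q212.BP.Two

/-!
# The dichotomy for templates generated by two random tuples

Let `G` be any permutation group of a set `B`, let `p ≠ q` be elements of `B` and let `R` be the
`G`-invariant relation generated by two tuples with entries in `{p, q}` such that all four pairs of
`p` and `q` occur as columns (almost all pairs of tuples of large length).  If the graph with the
edges `{g p, g q}` is not 2-colourable, or if `p` and `q` are in the same orbit but cannot be
swapped, then `(B; Γ, R)` pp-constructs `K_3` for every `Γ`; otherwise `(B; R)` is homomorphically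
equivalent to a Boolean structure with a majority or a minority polymorphism.

Proof of hardness: ternary maps which preserve the relation `{(u, u, v, v), (u, v, u, v)}`, `(u, v)`
in the orbit of `(p, q)`, on an odd closed walk, or on a directed path of length two, depend on one
variable only.
-/

set_option autoImplicit false

namespace Pool.Agent.Results.MP_6ab439_lc.TwoRandomTuples

open Pool.Agent.W994.AR Pool.Agent.Q212.BP

/-- (1) Let `a 0`, `a 1` be `k`-tuples with entries in a finite set `D ⊆ B` such that all pairs of
elements of `D` occur as columns, and let `R` be generated by them and `G`.  If `HardPair G p q` for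
some `p ≠ q` in `D`, then `(B; Γ, R)` pp-constructs `K_3` for every `Γ`.
(2) All but a proportion `d ^ 2 * (1 - 1 / d ^ 2) ^ k` of the pairs of tuples with entries in the
`d`-element set `D ≠ ∅` satisfy the assumption on the columns.
(3) If `HardPair G p q` fails and `R` is generated by two tuples with entries in `{p, q}`, then
`(B; R)` does not pp-construct `K_3` and is homomorphically equivalent to a structure on `{0, 1}`
with a majority or a minority polymorphism.
(4) `HardPair G p q` holds if the orbit of `(p, q)` contains the sides of a triangle, each in at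
least one direction. -/
theorem result :
    (∀ {B : Type} (D : Finset B) (G : Subgroup (Equiv.Perm B)) (p q : D), p ≠ q →
      HardPair G (p : B) (q : B) → ∀ (k : ℕ) (a : Fin 2 → Fin k → D),
      (∀ u v : D, ∃ i, a 0 i = u ∧ a 1 i = v) →
      ∀ (ι : Type) (arΓ : ι → ℕ) (Γ : Str ι arΓ B),
        PPConstructsK3 (expand Γ (τ := Fin 1) (k := fun _ => k)
          (fun _ => gen G (fun s i => (a s i : B))))) ∧
    (∀ {B : Type} (D : Finset B), D.Nonempty → ∀ k : ℕ,
      (Nat.card {a : Fin 2 → Fin k → D // ¬ ∀ u v : D, ∃ i, a 0 i = u ∧ a 1 i = v} : ℝ) ≤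
        (D.card : ℝ) ^ 2 * (1 - 1 / (D.card : ℝ) ^ 2) ^ k * ((D.card : ℝ) ^ k) ^ 2) ∧
    (∀ {B : Type} (G : Subgroup (Equiv.Perm B)) (p q : B), ¬ HardPair G p q →
      ∀ (k : ℕ) (a : Fin 2 → Fin k → Bool),
        ¬ PPConstructsK3 (ι := Fin 1) (ar := fun _ => k)
          (fun _ => gen G (fun s j => if a s j = true then q else p)) ∧
        ∃ (S : Set (Fin k → Bool)) (f : (Fin 3 → Bool) → Bool), (IsMajority f ∨ IsMinority f) ∧
          IsPol (ι := Fin 1) (ar := fun _ => k) (fun _ => S) f ∧
          (∃ χ : B → Bool, ∀ v ∈ gen G (fun s j => if a s j = true then q else p),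
            (fun j => χ (v j)) ∈ S) ∧
          (∃ ψ : Bool → B, ∀ v ∈ S,
            (fun j => ψ (v j)) ∈ gen G (fun s j => if a s j = true then q else p))) ∧
    (∀ {B : Type} (G : Subgroup (Equiv.Perm B)) (p q : B) (x : Fin 3 → B),
      (∀ i j, i ≠ j → (∃ g ∈ G, g p = x i ∧ g q = x j) ∨ (∃ g ∈ G, g p = x j ∧ g q = x i)) →
        HardPair G p q) := by
  classical
  refine ⟨?_, ?_, ?_, ?_⟩
  · intro B D G p q hpq hG k a ha ι arΓ Γ
    refine k3_of_word_two (D := D) (e := Subtype.val) Subtype.val_injective hpq Γ (gen_invar G _)
      (wd a id) ?_ (fun j => ⟨j, Same.refl G _⟩)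
      (gen_out Subtype.val_injective G (fun s hs => absurd rfl (hs s))) hG
    intro y
    obtain ⟨i, h0, h1⟩ := ha (y 0) (y 1)
    refine ⟨i, ?_⟩
    funext s
    fin_cases s
    · exact h0
    · exact h1
  · intro B D hD k
    have : Nonempty D := hD.to_subtype
    have h1 := pr_not_surj (D := D) k (id : Fin 2 → Fin 2) Function.injective_id
    have h2 : pr (fun a : Fin 2 → Fin k → D => ¬ ∀ u v : D, ∃ i, a 0 i = u ∧ a 1 i = v) ≤
        (Fintype.card D : ℝ) ^ 2 * (1 - 1 / (Fintype.card D : ℝ) ^ 2) ^ k := by
      refine le_trans (pr_mono ?_) h1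
      intro a ha hs
      apply ha
      intro u v
      obtain ⟨i, hi⟩ := hs ![u, v]
      exact ⟨i, congrFun hi 0, congrFun hi 1⟩
    have h3 := natCard_le h2
    have h4 : (Fintype.card (Fin 2 → Fin k → D) : ℝ) = ((D.card : ℝ) ^ k) ^ 2 := by
      rw [Fintype.card_fun, Fintype.card_fun, Fintype.card_fin, Fintype.card_fin,
        Fintype.card_coe]
      push_cast
      rfl
    rw [h4, Fintype.card_coe] at h3
    exact h3
  · intro B G p q h k a
    exact ⟨easy_two h a, easy_hom h a⟩
  · intro B G p q x hx
    exact hardPair_of_triangle x hx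

end Pool.Agent.Results.MP_6ab439_lc.TwoRandomTuples
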