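import Pool.Agent.Q112.BP.Crit

/-!
# Non-bipartite graphs with a winding function in infinite-domain CSP templates

An omega-categorical structure which pp-defines, on some finite power of its domain, a non-bipartite
graph with a winding function pp-constructs `K_3`.  Winding functions exist on all graphs which map
homomorphically to a graph with real labels whose differences on edges lie in `[1, 3)` (so on all
3-colourable graphs and all graphs of circular chromatic number less than 4) or to a graph without
4-cycles.

Proof.  The winding function gives every polymorphism of the graph an integer degree in each of its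
variables (along a closed walk of odd length, run through twice).  Degrees are additive, their sum is
2 modulo 4 and their absolute values have bounded sum; so there is a polymorphism `m` with the
largest number of variables of degree 2 modulo 4.  Composing `m` with any polymorphism `g` in all
variables shows that in one fixed variable of `m` exactly one variable of `g` has degree 2 modulo 4:
this is a uniformly continuous minor preserving map from the polymorphisms to the projections.
-/

set_option autoImplicit false

namespace Pool.Agent.Results.MP_6ab439_lc.WindingGraphs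

open Pool.Agent.W994.AR Pool.Agent.Q112.BP

/-- (1) Let `𝔸` be a countable structure with finitely many relations whose automorphism group has
finitely many orbits on `k`-tuples for every `k`.  Let `R` be a symmetric binary relation on
`A ^ n`, primitive positive definable in `𝔸`, which has a closed walk of odd length and a winding
function.  Then `𝔸` pp-constructs `K_3`.
(2) The graph `E` has a winding function if it maps homomorphically to a graph `E'` with a real
labelling whose differences on the edges have absolute values in `[1, 3)`, or to a loopless
symmetric graph `E'` without cycles of length four.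
(3) A structure whose relations are invariant under the automorphisms of a homogeneous structure in
a finite signature satisfies the hypothesis on the orbits. -/
theorem result :
    (∀ {A ι : Type} [Countable A] [Finite ι] {ar : ι → ℕ} (𝔸 : Str ι ar A), Oligo 𝔸 →
      ∀ (n : ℕ) (R : Set (Fin n ⊕ Fin n → A)), PPDef 𝔸 R →
      (∀ x y : Fin n → A, Sum.elim x y ∈ R → Sum.elim y x ∈ R) →
      (∃ (ℓ : ℕ) (v : Fin n → A), Odd ℓ ∧
        Walk (fun x y : Fin n → A => Sum.elim x y ∈ R) ℓ v v) →
      HasWinding (fun x y : Fin n → A => Sum.elim x y ∈ R) →
      PPConstructsK3 𝔸) ∧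
    (∀ {V V' : Type} (E : V → V → Prop) (E' : V' → V' → Prop) (φ : V → V'),
      (∀ x y, E x y → E' (φ x) (φ y)) →
      ((∃ c : V' → ℝ, ∀ x y, E' x y → 1 ≤ |c x - c y| ∧ |c x - c y| < 3) ∨
        ((∀ x y, E' x y → E' y x) ∧ (∀ x, ¬ E' x x) ∧
          ∀ a b c d, E' a b → E' b c → E' c d → E' d a → a = c ∨ b = d)) →
      HasWinding E) ∧
    (∀ {A σ ι : Type} [Finite σ] {arB : σ → ℕ} {ar : ι → ℕ} (𝔹 : Str σ arB A), Homogeneous 𝔹 →
      ∀ 𝔸 : Str ι ar A, (∀ i, Invar (autGroup 𝔹) (𝔸 i)) → Oligo 𝔸) := by
  refine ⟨?_, ?_, ?_⟩
  · intro A ι _ _ ar 𝔸 hO n R hR hsym hodd hw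
    obtain ⟨ℓ, v, hℓ, hwalk⟩ := hodd
    obtain ⟨δ, B, hδ⟩ := hw
    exact main hO R hR hsym hℓ hwalk hδ
  · intro V V' E E' φ hφ h
    refine HasWinding.comap ?_ φ hφ
    rcases h with ⟨c, hc⟩ | ⟨h1, h2, h3⟩
    · exact hasWinding_real c hc
    · exact hasWinding_squareFree h1 h2 h3
  · intro A σ ι _ arB ar 𝔹 hB 𝔸 h
    exact oligo_of_homogeneous 𝔹 hB 𝔸 h

end Pool.Agent.Results.MP_6ab439_lc.WindingGraphs
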